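import Mathlib

/-!
# Shortest flip paths of 2-triangulations of the octagon may flip a common edge

The vertices of a convex `n`-gon are `0, ..., n - 1` in cyclic order, an edge or diagonal is a pair
`(i, j)` with `i < j`.
-/

namespace Pool.Agent.Results.MP_1d99bd_co.OctagonGeodesic

/-- The edges and diagonals of a convex polygon with vertices `0, ..., n - 1` in cyclic order:
the pairs `(i, j)` with `i < j`. -/
def chords (n : ℕ) : Finset (Fin n × Fin n) :=
  Finset.univ.filter fun e => e.1 < e.2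

/-- Two edges of the convex polygon cross (in their relative interiors): their endpoints alternate
around the polygon. -/
def Cross {n : ℕ} (e f : Fin n × Fin n) : Prop :=
  (e.1 < f.1 ∧ f.1 < e.2 ∧ e.2 < f.2) ∨ (f.1 < e.1 ∧ e.1 < f.2 ∧ f.2 < e.2)

/-- `T` contains no `k + 1` pairwise crossing edges. -/
def CrossingFree (k : ℕ) {n : ℕ} (T : Finset (Fin n × Fin n)) : Prop :=
  ∀ S ⊆ T, (∀ e ∈ S, ∀ f ∈ S, e ≠ f → Cross e f) → S.card ≤ k

/-- `T` is a `k`-triangulation of the convex `n`-gon: an inclusion-maximal set of edges without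
`k + 1` pairwise crossing edges. -/
structure IsKTriangulation (k n : ℕ) (T : Finset (Fin n × Fin n)) : Prop where
  sub : T ⊆ chords n
  free : CrossingFree k T
  max : ∀ T' ⊆ chords n, CrossingFree k T' → T ⊆ T' → T' = T

/-- The `k`-triangulations of the convex `n`-gon. -/
def KTri (k n : ℕ) : Type := {T : Finset (Fin n × Fin n) // IsKTriangulation k n T}

/-- The flip graph on the `k`-triangulations of the convex `n`-gon: two `k`-triangulations are
adjacent when they differ by a flip, that is, when each is obtained from the other by exchanging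
exactly one edge. -/
def flipGraph (k n : ℕ) : SimpleGraph (KTri k n) where
  Adj T T' := (T.1 \ T'.1).card = 1 ∧ (T'.1 \ T.1).card = 1
  symm := ⟨fun _ _ h => ⟨h.2, h.1⟩⟩
  loopless := ⟨fun T h => by simpa using h.1⟩

instance {n : ℕ} (e f : Fin n × Fin n) : Decidable (Cross e f) := by
  unfold Cross; infer_instance

theorem cross_symm {n : ℕ} {e f : Fin n × Fin n} (h : Cross e f) : Cross f e := by
  unfold Cross at *; tauto

theorem cross_ne {n : ℕ} {e f : Fin n × Fin n} (h : Cross e f) : e ≠ f := by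
  rintro rfl
  rcases h with h | h
  · exact lt_irrefl _ h.1
  · exact lt_irrefl _ h.1

/-- Three pairwise crossing edges spoil `CrossingFree 2`. -/
theorem not_free {n : ℕ} {T : Finset (Fin n × Fin n)} (hT : CrossingFree 2 T)
    {a b c : Fin n × Fin n} (ha : a ∈ T) (hb : b ∈ T) (hc : c ∈ T)
    (hab : Cross a b) (hbc : Cross b c) (hac : Cross a c) : False := by
  have h := hT {a, b, c} (by
    intro x hx
    simp only [Finset.mem_insert, Finset.mem_singleton] at hx
    rcases hx with rfl | rfl | rfl <;> assumption) (by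
    intro x hx y hy hxy
    simp only [Finset.mem_insert, Finset.mem_singleton] at hx hy
    rcases hx with rfl | rfl | rfl <;> rcases hy with rfl | rfl | rfl <;>
      first
        | exact absurd rfl hxy
        | assumption
        | (apply cross_symm; assumption))
  have h3 : ({a, b, c} : Finset (Fin n × Fin n)).card = 3 := by
    rw [Finset.card_eq_three]
    exact ⟨a, b, c, cross_ne hab, cross_ne hac, cross_ne hbc, rfl⟩
  omega

theorem free_of {n : ℕ} {T : Finset (Fin n × Fin n)}
    (h : ∀ a ∈ T, ∀ b ∈ T, Cross a b → ∀ c ∈ T, Cross b c → ¬ Cross a c) :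
    CrossingFree 2 T := by
  intro S hS hc
  by_contra hcard
  push Not at hcard
  obtain ⟨a, b, c, ha, hb, hcc, hab, hac, hbc⟩ := (Finset.two_lt_card_iff).1 hcard
  exact h a (hS ha) b (hS hb) (hc a ha b hb hab) c (hS hcc) (hc b hb c hcc hbc)
    (hc a ha c hcc hac)

/-- The edges of length at most two of the octagon; they belong to every 2-triangulation. -/
def irr : Finset (Fin 8 × Fin 8) :=
  {(0, 1), (1, 2), (2, 3), (3, 4), (4, 5), (5, 6), (6, 7), (0, 7),
   (0, 2), (1, 3), (2, 4), (3, 5), (4, 6), (5, 7), (0, 6), (1, 7)}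

def r0 : Finset (Fin 8 × Fin 8) := {(0, 3), (0, 4), (1, 4), (1, 5), (1, 6), (4, 7)}
def r1 : Finset (Fin 8 × Fin 8) := {(0, 3), (0, 4), (1, 4), (3, 6), (1, 6), (4, 7)}
def r2 : Finset (Fin 8 × Fin 8) := {(2, 6), (0, 4), (1, 4), (3, 6), (1, 6), (4, 7)}
def r3 : Finset (Fin 8 × Fin 8) := {(2, 6), (2, 7), (1, 4), (3, 6), (1, 6), (4, 7)}
def r4 : Finset (Fin 8 × Fin 8) := {(2, 6), (2, 7), (1, 4), (3, 6), (1, 6), (1, 5)}

theorem isK {r : Finset (Fin 8 × Fin 8)}
    (h1 : irr ∪ r ⊆ chords 8)
    (h2 : ∀ a ∈ irr ∪ r, ∀ b ∈ irr ∪ r, Cross a b → ∀ c ∈ irr ∪ r, Cross b c → ¬ Cross a c)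
    (h3 : ∀ x ∈ chords 8, x ∉ irr ∪ r → ∃ a ∈ r, ∃ b ∈ r, Cross x a ∧ Cross a b ∧ Cross x b) :
    IsKTriangulation 2 8 (irr ∪ r) where
  sub := h1
  free := free_of h2
  max := by
    intro T' hT' hf hsub
    refine (Finset.Subset.antisymm hsub ?_).symm
    intro x hx
    by_contra hxn
    obtain ⟨a, ha, b, hb, h⟩ := h3 x (hT' hx) hxn
    exact not_free hf hx (hsub (Finset.mem_union_right _ ha))
      (hsub (Finset.mem_union_right _ hb)) h.1 h.2.1 h.2.2

set_option maxRecDepth 100000 in
theorem k0 : IsKTriangulation 2 8 (irr ∪ r0) := isK (by decide) (by decide) (by decide)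
set_option maxRecDepth 100000 in
theorem k1 : IsKTriangulation 2 8 (irr ∪ r1) := isK (by decide) (by decide) (by decide)
set_option maxRecDepth 100000 in
theorem k2 : IsKTriangulation 2 8 (irr ∪ r2) := isK (by decide) (by decide) (by decide)
set_option maxRecDepth 100000 in
theorem k3 : IsKTriangulation 2 8 (irr ∪ r3) := isK (by decide) (by decide) (by decide)
set_option maxRecDepth 100000 in
theorem k4 : IsKTriangulation 2 8 (irr ∪ r4) := isK (by decide) (by decide) (by decide)

def t0 : KTri 2 8 := ⟨irr ∪ r0, k0⟩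
def t1 : KTri 2 8 := ⟨irr ∪ r1, k1⟩
def t2 : KTri 2 8 := ⟨irr ∪ r2, k2⟩
def t3 : KTri 2 8 := ⟨irr ∪ r3, k3⟩
def t4 : KTri 2 8 := ⟨irr ∪ r4, k4⟩

set_option maxRecDepth 100000 in
theorem a01 : (flipGraph 2 8).Adj t0 t1 := ⟨by decide, by decide⟩
set_option maxRecDepth 100000 in
theorem a12 : (flipGraph 2 8).Adj t1 t2 := ⟨by decide, by decide⟩
set_option maxRecDepth 100000 in
theorem a23 : (flipGraph 2 8).Adj t2 t3 := ⟨by decide, by decide⟩
set_option maxRecDepth 100000 in
theorem a34 : (flipGraph 2 8).Adj t3 t4 := ⟨by decide, by decide⟩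

theorem card_sdiff_le {k n : ℕ} {X Y : KTri k n} (p : (flipGraph k n).Walk X Y) :
    (X.1 \ Y.1).card ≤ p.length := by
  induction p with
  | nil => simp
  | @cons u v w h q ih =>
    have hsub : u.1 \ w.1 ⊆ (u.1 \ v.1) ∪ (v.1 \ w.1) := by
      intro x hx
      simp only [Finset.mem_sdiff, Finset.mem_union] at hx ⊢
      by_cases hv : x ∈ v.1
      · exact Or.inr ⟨hv, hx.2⟩
      · exact Or.inl ⟨hx.1, hv⟩
    have h1 := Finset.card_le_card hsub
    have h2 := Finset.card_union_le (u.1 \ v.1) (v.1 \ w.1)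
    have h3 : (u.1 \ v.1).card = 1 := h.1
    simp only [SimpleGraph.Walk.length_cons]
    omega

set_option maxRecDepth 100000 in
theorem diff04 : (irr ∪ r0) \ (irr ∪ r4) = {(0, 3), (0, 4), (4, 7)} := by decide

set_option maxRecDepth 100000 in
theorem diff40 : (irr ∪ r4) \ (irr ∪ r0) = {(2, 6), (2, 7), (3, 6)} := by decide

set_option maxRecDepth 100000 in
theorem bad : ∀ e ∈ ({(0, 3), (0, 4), (4, 7)} : Finset (Fin 8 × Fin 8)),
    ∀ f ∈ ({(2, 6), (2, 7), (3, 6)} : Finset (Fin 8 × Fin 8)),
    ∃ a ∈ r0.erase e, ∃ b ∈ r0.erase e, Cross f a ∧ Cross a b ∧ Cross f b := by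
  decide

/-- The flip distance between `t0` and `t4` is at least four. -/
theorem four_le (p : (flipGraph 2 8).Walk t0 t4) : 4 ≤ p.length := by
  by_contra hlt
  push Not at hlt
  have hc3 : (t0.1 \ t4.1).card = 3 := by
    show ((irr ∪ r0) \ (irr ∪ r4)).card = 3
    rw [diff04]; rfl
  have hne : t0 ≠ t4 := by
    intro h
    rw [h] at hc3
    simp at hc3
  obtain ⟨X, h, q, rfl⟩ := SimpleGraph.Walk.exists_eq_cons_of_ne hne p
  · simp only [SimpleGraph.Walk.length_cons] at hlt
    have hq := card_sdiff_le q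
    obtain ⟨e, he⟩ := Finset.card_eq_one.1 h.1
    obtain ⟨f, hf⟩ := Finset.card_eq_one.1 h.2
    have hfX : f ∈ X.1 ∧ f ∉ t0.1 := by
      have : f ∈ X.1 \ t0.1 := by rw [hf]; exact Finset.mem_singleton_self f
      simpa using this
    have hkeep : ∀ x ∈ t0.1, x ≠ e → x ∈ X.1 := by
      intro x hx hxe
      by_contra hxX
      have : x ∈ t0.1 \ X.1 := by simp [hx, hxX]
      rw [he] at this
      exact hxe (Finset.mem_singleton.1 this)
    -- the removed edge is one of the three edges of `t0` not in `t4`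
    have heD : e ∈ t0.1 \ t4.1 := by
      by_contra hne
      have hsub : t0.1 \ t4.1 ⊆ X.1 \ t4.1 := by
        intro x hx
        have hx' := Finset.mem_sdiff.1 hx
        refine Finset.mem_sdiff.2 ⟨hkeep x hx'.1 ?_, hx'.2⟩
        rintro rfl
        exact hne hx
      have := Finset.card_le_card hsub
      omega
    -- the inserted edge belongs to `t4`
    have hf4 : f ∈ t4.1 := by
      by_contra hne
      have hsub : insert f ((t0.1 \ t4.1).erase e) ⊆ X.1 \ t4.1 := by
        intro x hx
        rcases Finset.mem_insert.1 hx with rfl | hx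
        · exact Finset.mem_sdiff.2 ⟨hfX.1, hne⟩
        · have hx' := Finset.mem_erase.1 hx
          have hx'' := Finset.mem_sdiff.1 hx'.2
          exact Finset.mem_sdiff.2 ⟨hkeep x hx''.1 hx'.1, hx''.2⟩
      have h1 := Finset.card_le_card hsub
      rw [Finset.card_insert_of_notMem (by
        intro hx
        exact hfX.2 (Finset.mem_sdiff.1 (Finset.mem_erase.1 hx).2).1),
        Finset.card_erase_of_mem heD] at h1
      omega
    have he' : e ∈ ({(0, 3), (0, 4), (4, 7)} : Finset (Fin 8 × Fin 8)) := by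
      rw [← diff04]; exact heD
    have hf' : f ∈ ({(2, 6), (2, 7), (3, 6)} : Finset (Fin 8 × Fin 8)) := by
      rw [← diff40]; exact Finset.mem_sdiff.2 ⟨hf4, hfX.2⟩
    obtain ⟨a, ha, b, hb, hfa, hab, hfb⟩ := bad e he' f hf'
    have ha' := Finset.mem_erase.1 ha
    have hb' := Finset.mem_erase.1 hb
    exact not_free X.2.free hfX.1
      (hkeep a (Finset.mem_union_right _ ha'.2) ha'.1)
      (hkeep b (Finset.mem_union_right _ hb'.2) hb'.1) hfa hab hfb

/-- There are two 2-triangulations `T`, `T'` of the convex octagon, an edge `e` common to `T` and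
`T'` and a shortest path `p` from `T` to `T'` in the flip graph one of whose steps flips `e`. -/
theorem result :
    ∃ (T T' : KTri 2 8) (e : Fin 8 × Fin 8) (p : (flipGraph 2 8).Walk T T'),
      e ∈ T.1 ∧ e ∈ T'.1 ∧ p.length = (flipGraph 2 8).dist T T' ∧
      ∃ d ∈ p.darts, e ∈ d.fst.1 ∧ e ∉ d.snd.1 := by
  let p : (flipGraph 2 8).Walk t0 t4 :=
    .cons a01 (.cons a12 (.cons a23 (.cons a34 .nil)))
  refine ⟨t0, t4, (1, 5), p, by decide, by decide, ?_, ?_⟩
  · apply le_antisymm
    · obtain ⟨w, hw⟩ := (SimpleGraph.Walk.reachable p).exists_walk_length_eq_dist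
      rw [← hw]
      exact four_le w
    · exact SimpleGraph.dist_le p
  · refine ⟨⟨(t0, t1), a01⟩, by simp [p], by decide, by decide⟩

end Pool.Agent.Results.MP_1d99bd_co.OctagonGeodesic
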